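import Pool.Agent.W444.QG.Env

/-!
# Closed subgroups of `U_N⁺`, corepresentations, the central algebra, connectedness, diagonal tori

The definitions follow Woronowicz's formalism with the extra axiom `S² = id`.
-/

noncomputable section

namespace Pool.Agent.W444.QG

open scoped TensorProduct Matrix

/-- The maximal C*-tensor square `C ⊗ C` of a unital C*-algebra `C`, given by its universal
property: the universal C*-algebra with two commuting `*`-homomorphisms `left a = a ⊗ 1` and
`right b = 1 ⊗ b` from `C`. -/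
structure TensorSquare (C : Type) [CStarAlgebra C] where
  /-- the C*-algebra `C ⊗ C` -/
  T : Type
  /-- its C*-algebra structure -/
  [cstarT : CStarAlgebra T]
  /-- `a ↦ a ⊗ 1` -/
  left : C →⋆ₐ[ℂ] T
  /-- `b ↦ 1 ⊗ b` -/
  right : C →⋆ₐ[ℂ] T
  comm : ∀ a b, left a * right b = right b * left a
  lift : ∀ (D : Type) [CStarAlgebra D] (φ ψ : C →⋆ₐ[ℂ] D), (∀ a b, φ a * ψ b = ψ b * φ a) →
    ∃! θ : T →⋆ₐ[ℂ] D, (∀ a, θ (left a) = φ a) ∧ ∀ b, θ (right b) = ψ b

attribute [instance] TensorSquare.cstarT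

/-- The elementary tensor `a ⊗ b` in the maximal C*-tensor square. -/
def TensorSquare.tmul {C : Type} [CStarAlgebra C] (S : TensorSquare C) (a b : C) : S.T :=
  S.left a * S.right b

/-- A closed quantum subgroup `G ⊂ U_N⁺`: a unital C*-algebra `C = C(G)` generated by the entries of
a unitary `u ∈ M_N(C)` such that `Δ(u_ij) = ∑ₖ u_ik ⊗ u_kj`, `ε(u_ij) = δ_ij`, `S(u_ij) = u_ji*`
define morphisms of C*-algebras `Δ : C → C ⊗ C` (maximal C*-tensor product), `ε : C → ℂ` and
`S : C → Cᵒᵖ`. -/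
structure ClosedSubgroup (N : ℕ) where
  /-- the C*-algebra `C(G)` -/
  C : Type
  /-- its C*-algebra structure -/
  [cstar : CStarAlgebra C]
  /-- the fundamental corepresentation -/
  u : Matrix (Fin N) (Fin N) C
  unitary_left : uᴴ * u = 1
  unitary_right : u * uᴴ = 1
  /-- the entries of `u` generate `C(G)` as a C*-algebra -/
  generates : (StarAlgebra.adjoin ℂ {a | ∃ i j, u i j = a}).topologicalClosure = ⊤
  /-- the C*-algebra `C(G) ⊗ C(G)` -/
  square : TensorSquare C
  /-- the comultiplication -/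
  comul : C →⋆ₐ[ℂ] square.T
  comul_u : ∀ i j, comul (u i j) = ∑ k, square.tmul (u i k) (u k j)
  /-- the counit -/
  counit : C →⋆ₐ[ℂ] ℂ
  counit_u : ∀ i j, counit (u i j) = if i = j then 1 else 0
  /-- the antipode -/
  antipode : C →⋆ₐ[ℂ] Cᵐᵒᵖ
  antipode_u : ∀ i j, antipode (u i j) = MulOpposite.op (star (u j i))

namespace ClosedSubgroup

attribute [instance] ClosedSubgroup.cstar

variable {N : ℕ} (G : ClosedSubgroup N)

/-- A scalar matrix regarded as a matrix over `C(G)`. -/
def sc {m n : Type} (T : Matrix m n ℂ) : Matrix m n G.C := T.map (algebraMap ℂ G.C)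

/-- `w` is a (finite dimensional) unitary corepresentation of `G`. -/
def IsCorep {n : Type} [Fintype n] [DecidableEq n] (w : Matrix n n G.C) : Prop :=
  wᴴ * w = 1 ∧ w * wᴴ = 1 ∧ ∀ i j, G.comul (w i j) = ∑ k, G.square.tmul (w i k) (w k j)

/-- The corepresentation `w` is irreducible: it is non-zero and its only self-intertwiners are the
scalars. -/
def Irreducible {n : Type} [Fintype n] [DecidableEq n] (w : Matrix n n G.C) : Prop :=
  Nonempty n ∧ ∀ T : Matrix n n ℂ, G.sc T * w = w * G.sc T → ∃ c : ℂ, T = c • 1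

/-- The characters `χ_r = ∑ᵢ r_ii` of the irreducible finite dimensional unitary corepresentations
of `G`. -/
def irreducibleCharacters : Set G.C :=
  {a | ∃ (n : ℕ) (r : Matrix (Fin n) (Fin n) G.C), G.IsCorep r ∧ G.Irreducible r ∧ a = r.trace}

/-- The central algebra `C(G)_central`: the norm closure of the linear span of the irreducible
characters. -/
def central : Set G.C := closure (Submodule.span ℂ G.irreducibleCharacters : Set G.C)

/-- The subspace `B` is a finite dimensional unital `*`-subalgebra of `C(G)`. -/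
def IsFinStarSubalgebra (B : Submodule ℂ G.C) : Prop :=
  FiniteDimensional ℂ B ∧ (1 : G.C) ∈ B ∧ (∀ x ∈ B, ∀ y ∈ B, x * y ∈ B) ∧ ∀ x ∈ B, star x ∈ B

/-- The algebraic tensor product `B ⊗ B`, as a subspace of `C(G) ⊗ C(G)`. -/
def tensorSub (B : Submodule ℂ G.C) : Submodule ℂ G.square.T :=
  Submodule.span ℂ {t | ∃ x ∈ B, ∃ y ∈ B, t = G.square.tmul x y}

/-- `G` is connected: it has no finite quantum group quotient `G → F` with `F ≠ {1}`, i.e. every
finite dimensional unital `*`-subalgebra `B = C(F)` of `C(G)` with `Δ(B) ⊂ B ⊗ B` consists of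
scalars. -/
def IsConnected : Prop :=
  ∀ B : Submodule ℂ G.C, G.IsFinStarSubalgebra B → (∀ b ∈ B, G.comul b ∈ G.tensorSub B) →
    ∀ b ∈ B, ∃ c : ℂ, b = c • (1 : G.C)

/-- `v = Q u Q*`. -/
def conj (Q : Matrix (Fin N) (Fin N) ℂ) : Matrix (Fin N) (Fin N) G.C :=
  G.sc Q * G.u * G.sc Qᴴ

/-- The closed two-sided ideal of `C(G)` generated by the `v_ij`, `i ≠ j`. -/
def torusIdeal (Q : Matrix (Fin N) (Fin N) ℂ) : TwoSidedIdeal G.C :=
  sInf {I : TwoSidedIdeal G.C | IsClosed (I : Set G.C) ∧ ∀ i j, i ≠ j → G.conj Q i j ∈ I}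

/-- The quotient `C(G) / ⟨v_ij = 0, i ≠ j⟩`. -/
abbrev TorusQuot (Q : Matrix (Fin N) (Fin N) ℂ) : Type := (G.torusIdeal Q).ringCon.Quotient

/-- The quotient map `π_Q : C(G) → C(G) / ⟨v_ij = 0, i ≠ j⟩`. -/
def toTorus (Q : Matrix (Fin N) (Fin N) ℂ) : G.C →+* G.TorusQuot Q := (G.torusIdeal Q).ringCon.mk'

/-- The off-diagonal entries of `v` vanish in the quotient. -/
lemma toTorus_off {Q : Matrix (Fin N) (Fin N) ℂ} {i j : Fin N} (hij : i ≠ j) :
    G.toTorus Q (G.conj Q i j) = 0 := by
  have h : G.conj Q i j ∈ G.torusIdeal Q := by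
    rw [torusIdeal, TwoSidedIdeal.mem_sInf]
    intro I hI
    exact hI.2 i j hij
  have h2 : (G.torusIdeal Q).ringCon (G.conj Q i j) 0 := h
  have h3 := (RingCon.eq (G.torusIdeal Q).ringCon).2 h2
  exact h3

/-- the scalar matrices over `C(G)` multiply as usual -/
lemma sc_mul {l m n : Type} [Fintype m] (S : Matrix l m ℂ) (T : Matrix m n ℂ) :
    G.sc (S * T) = G.sc S * G.sc T := by
  simp [sc, Matrix.map_mul]

lemma sc_one {n : Type} [DecidableEq n] : G.sc (1 : Matrix n n ℂ) = 1 := by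
  simp [sc]

lemma sc_conjTranspose {m n : Type} (S : Matrix m n ℂ) : (G.sc S)ᴴ = G.sc Sᴴ := by
  ext i j
  simp only [sc, Matrix.conjTranspose_apply, Matrix.map_apply]
  rw [algebraMap_star_comm]

/-- Evaluation of a noncommutative polynomial in the variables `(false, i, j)` and `(true, i, j)`
at the elements `w_ij` and `w_ij*` of a C*-algebra. -/
def evalPoly {D : Type} [CStarAlgebra D] (w : Matrix (Fin N) (Fin N) D)
    (p : FreeAlgebra ℂ (Bool × Fin N × Fin N)) : D :=
  FreeAlgebra.lift ℂ (fun x => if x.1 then star (w x.2.1 x.2.2) else w x.2.1 x.2.2) p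

/-- `C(G)` is the full (maximal) C*-algebra `C_max(G)` of `G`: if elements `w_ij` of a C*-algebra
`D` satisfy all the `*`-polynomial relations satisfied by the `u_ij`, then `u_ij ↦ w_ij` extends to
a `*`-homomorphism `C(G) → D`. -/
def IsFull : Prop := ∀ (D : Type) [CStarAlgebra D] (w : Matrix (Fin N) (Fin N) D),
  (∀ p, evalPoly G.u p = 0 → evalPoly w p = 0) →
    ∃ φ : G.C →⋆ₐ[ℂ] D, ∀ i j, φ (G.u i j) = w i j

end ClosedSubgroup

end Pool.Agent.W444.QG
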