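import Pool.Agent.W444.QG.Env
import Pool.Agent.W444.QG.Defs

/-!
# Existence of the maximal C*-tensor square
-/

noncomputable section

namespace Pool.Agent.W444.QG

open scoped TensorProduct

/-- `*`-homomorphisms of C*-algebras are continuous. -/
lemma star_hom_continuous {C D : Type} [CStarAlgebra C] [CStarAlgebra D] (φ : C →⋆ₐ[ℂ] D) :
    Continuous φ :=
  AddMonoidHomClass.continuous_of_bound φ 1
    (fun x => by rw [one_mul]; exact NonUnitalStarAlgHom.norm_apply_le φ x)

variable (C : Type) [CStarAlgebra C]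

/-- Two commuting `*`-homomorphisms give an algebra homomorphism. -/
def pairAlg {D : Type} [CStarAlgebra D] (φ ψ : C →⋆ₐ[ℂ] D)
    (h : ∀ a b, φ a * ψ b = ψ b * φ a) : C ⊗[ℂ] C →ₐ[ℂ] D :=
  have h' : ∀ a b, Commute ((φ : C →ₐ[ℂ] D) a) ((ψ : C →ₐ[ℂ] D) b) := fun a b => h a b
  Algebra.TensorProduct.lift (φ : C →ₐ[ℂ] D) (ψ : C →ₐ[ℂ] D) h'

/-- Two commuting `*`-homomorphisms give a `*`-homomorphism of the algebraic tensor product. -/
def pairHom {D : Type} [CStarAlgebra D] (φ ψ : C →⋆ₐ[ℂ] D)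
    (h : ∀ a b, φ a * ψ b = ψ b * φ a) : C ⊗[ℂ] C →⋆ₐ[ℂ] D where
  __ := pairAlg C φ ψ h
  map_star' t := by
    show pairAlg C φ ψ h (star t) = star (pairAlg C φ ψ h t)
    induction t with
    | zero => simp
    | tmul a b =>
      rw [TensorProduct.star_tmul]
      show φ (star a) * ψ (star b) = star (φ a * ψ b)
      rw [h a b, star_mul, StarHomClass.map_star, StarHomClass.map_star]
    | add s t hs ht => rw [star_add, map_add, map_add, star_add, hs, ht]

lemma pairHom_tmul {D : Type} [CStarAlgebra D] (φ ψ : C →⋆ₐ[ℂ] D)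
    (h : ∀ a b, φ a * ψ b = ψ b * φ a) (a b : C) : pairHom C φ ψ h (a ⊗ₜ b) = φ a * ψ b := rfl

/-- `toMax` of an elementary tensor -/
lemma toMax_tmul (a b : C) : (toMax (a ⊗ₜ[ℂ] b) : MaxTensor C C) =
    toMax (a ⊗ₜ[ℂ] (1 : C)) * toMax ((1 : C) ⊗ₜ[ℂ] b) := by
  rw [← map_mul, Algebra.TensorProduct.tmul_mul_tmul, mul_one, one_mul]

lemma denseRange_toMax : DenseRange (toMax : C ⊗[ℂ] C → MaxTensor C C) :=
  (CStarSeminorm.max (CStarSeminorm.bdd_tensor C C)).denseRange_incl

/-- The maximal C*-tensor square. -/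
def maxSquare : TensorSquare C where
  T := MaxTensor C C
  left := toMax.comp (tmulLeft C C)
  right := toMax.comp (tmulRight C C)
  comm a b := by
    show (toMax (a ⊗ₜ[ℂ] (1 : C)) : MaxTensor C C) * toMax ((1 : C) ⊗ₜ[ℂ] b) =
      toMax ((1 : C) ⊗ₜ[ℂ] b) * toMax (a ⊗ₜ[ℂ] (1 : C))
    rw [← map_mul, ← map_mul, Algebra.TensorProduct.tmul_mul_tmul,
      Algebra.TensorProduct.tmul_mul_tmul, mul_one, one_mul, mul_one, one_mul]
  lift := by
    intro D _ φ ψ h
    have h1 : ∀ t, Envelope.lift (h := CStarSeminorm.bdd_tensor C C) (pairHom C φ ψ h) (toMax t) =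
        pairHom C φ ψ h t := fun t => Envelope.lift_incl _ t
    refine ⟨Envelope.lift (pairHom C φ ψ h), ⟨?_, ?_⟩, ?_⟩
    · intro a
      refine (h1 (a ⊗ₜ[ℂ] (1 : C))).trans ?_
      rw [pairHom_tmul, map_one, mul_one]
    · intro b
      refine (h1 ((1 : C) ⊗ₜ[ℂ] b)).trans ?_
      rw [pairHom_tmul, map_one, one_mul]
    · rintro θ ⟨hl, hr⟩
      have hθ : ∀ t : C ⊗[ℂ] C, θ (toMax t) = pairHom C φ ψ h t := by
        intro t
        induction t with
        | zero => simp
        | tmul a b =>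
          rw [toMax_tmul, map_mul, pairHom_tmul]
          exact congrArg₂ (· * ·) (hl a) (hr b)
        | add s t hs ht => rw [map_add, map_add, map_add, hs, ht]
      apply DFunLike.ext'
      refine (denseRange_toMax C).equalizer ?_ ?_ ?_
      · exact star_hom_continuous θ
      · exact star_hom_continuous _
      · funext t
        exact (hθ t).trans (h1 t).symm

lemma maxSquare_tmul (a b : C) : (maxSquare C).tmul a b = toMax (a ⊗ₜ[ℂ] b) :=
  (toMax_tmul C a b).symm

end Pool.Agent.W444.QG
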