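import Pool.Agent.W444.QG.Defs

/-!
# Complete reducibility of unitary corepresentations, and characters of tensor products
-/

noncomputable section

namespace Pool.Agent.W444.QG

open scoped TensorProduct Matrix

namespace ClosedSubgroup

variable {N : ℕ} (G : ClosedSubgroup N)

section general

variable {m n : Type} [Fintype m] [DecidableEq m] [Fintype n] [DecidableEq n]

omit [DecidableEq n] in
/-- the comultiplication condition in matrix form -/
lemma comul_iff (w : Matrix n n G.C) :
    (∀ i j, G.comul (w i j) = ∑ k, G.square.tmul (w i k) (w k j)) ↔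
      w.map G.comul = w.map G.square.left * w.map G.square.right := by
  constructor
  · intro h
    ext1 i j
    rw [Matrix.map_apply, h, Matrix.mul_apply]
    rfl
  · intro h i j
    have := congrFun (congrFun h i) j
    rw [Matrix.map_apply, Matrix.mul_apply] at this
    rw [this]
    rfl

/-- scalar matrices over the tensor square -/
def scT {m n : Type} (T : Matrix m n ℂ) : Matrix m n G.square.T := T.map (algebraMap ℂ G.square.T)

omit [Fintype m] [DecidableEq m] [Fintype n] [DecidableEq n] in
lemma sc_map (f : G.C →⋆ₐ[ℂ] G.square.T) (T : Matrix m n ℂ) : (G.sc T).map f = G.scT T := by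
  ext i j
  simp only [sc, scT, Matrix.map_apply]
  exact AlgHomClass.commutes f _

omit [DecidableEq m] [Fintype n] [DecidableEq n] in
lemma scT_mul {l : Type} (S : Matrix l m ℂ) (T : Matrix m n ℂ) :
    G.scT (S * T) = G.scT S * G.scT T := by
  simp [scT, Matrix.map_mul]

omit [Fintype n] in
lemma scT_one : G.scT (1 : Matrix n n ℂ) = 1 := by
  simp [scT]

variable {G}

/-- conjugation by a unitary matrix -/
lemma IsCorep.conj {w : Matrix n n G.C} (hw : G.IsCorep w) {U : Matrix n n ℂ} (hU : Uᴴ * U = 1)
    (hU' : U * Uᴴ = 1) : G.IsCorep (G.sc Uᴴ * w * G.sc U) := by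
  obtain ⟨h1, h2, h3⟩ := hw
  have k1 : G.sc Uᴴ * G.sc U = 1 := by rw [← sc_mul, hU, sc_one]
  have k2 : G.sc U * G.sc Uᴴ = 1 := by rw [← sc_mul, hU', sc_one]
  have k3 : (G.sc Uᴴ * w * G.sc U)ᴴ = G.sc Uᴴ * wᴴ * G.sc U := by
    rw [Matrix.conjTranspose_mul, Matrix.conjTranspose_mul, sc_conjTranspose, sc_conjTranspose,
      Matrix.conjTranspose_conjTranspose, Matrix.mul_assoc]
  refine ⟨?_, ?_, ?_⟩
  · rw [k3]
    calc G.sc Uᴴ * wᴴ * G.sc U * (G.sc Uᴴ * w * G.sc U)
        = G.sc Uᴴ * (wᴴ * ((G.sc U * G.sc Uᴴ) * w)) * G.sc U := by simp only [Matrix.mul_assoc]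
      _ = 1 := by rw [k2, Matrix.one_mul, h1, Matrix.mul_one, k1]
  · rw [k3]
    calc G.sc Uᴴ * w * G.sc U * (G.sc Uᴴ * wᴴ * G.sc U)
        = G.sc Uᴴ * (w * ((G.sc U * G.sc Uᴴ) * wᴴ)) * G.sc U := by simp only [Matrix.mul_assoc]
      _ = 1 := by rw [k2, Matrix.one_mul, h2, Matrix.mul_one, k1]
  · rw [comul_iff] at h3 ⊢
    have k4 : G.scT U * G.scT Uᴴ = 1 := by rw [← scT_mul, hU', scT_one]
    rw [Matrix.map_mul, Matrix.map_mul, Matrix.map_mul, Matrix.map_mul, Matrix.map_mul,
      Matrix.map_mul, sc_map, sc_map, sc_map, sc_map, sc_map, sc_map, h3]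
    calc G.scT Uᴴ * (w.map G.square.left * w.map G.square.right) * G.scT U
        = G.scT Uᴴ * (w.map G.square.left * 1 * w.map G.square.right) * G.scT U := by
          rw [Matrix.mul_one]
      _ = _ := by rw [← k4]; simp only [Matrix.mul_assoc]

/-- reindexing -/
lemma IsCorep.reindex {w : Matrix n n G.C} (hw : G.IsCorep w) (e : m ≃ n) :
    G.IsCorep (w.submatrix e e) := by
  obtain ⟨h1, h2, h3⟩ := hw
  refine ⟨?_, ?_, ?_⟩
  · rw [Matrix.conjTranspose_submatrix, Matrix.submatrix_mul_equiv, h1,
      Matrix.submatrix_one_equiv]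
  · rw [Matrix.conjTranspose_submatrix, Matrix.submatrix_mul_equiv, h2,
      Matrix.submatrix_one_equiv]
  · intro i j
    simp only [Matrix.submatrix_apply]
    rw [h3, e.sum_comp (fun k => G.square.tmul (w (e i) k) (w k (e j)))]

lemma Irreducible.reindex {w : Matrix n n G.C} (hw : G.Irreducible w) (e : m ≃ n) :
    G.Irreducible (w.submatrix e e) := by
  obtain ⟨h1, h2⟩ := hw
  refine ⟨?_, ?_⟩
  · exact ⟨e.symm h1.some⟩
  · intro T hT
    have h3 : G.sc (T.submatrix e.symm e.symm) * w = w * G.sc (T.submatrix e.symm e.symm) := by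
      have h4 := congrArg (fun Z : Matrix m m G.C => Z.submatrix e.symm e.symm) hT
      rw [← Matrix.submatrix_mul_equiv _ _ _ e.symm, ← Matrix.submatrix_mul_equiv _ _ _ e.symm]
        at h4
      simp only [Matrix.submatrix_submatrix, Equiv.self_comp_symm, Matrix.submatrix_id_id] at h4
      exact h4
    obtain ⟨c, hc⟩ := h2 _ h3
    refine ⟨c, ?_⟩
    have h5 := congrArg (fun Z : Matrix n n ℂ => Z.submatrix e e) hc
    simp only [Matrix.submatrix_submatrix, Equiv.symm_comp_self, Matrix.submatrix_id_id] at h5
    rw [h5, Matrix.submatrix_smul]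
    exact congrArg (fun Z : Matrix m m ℂ => c • Z) (Matrix.submatrix_one_equiv e)

/-- diagonal blocks -/
lemma IsCorep.block {w : Matrix n n G.C} (hw : G.IsCorep w) (p : n → Prop) [DecidablePred p]
    (h : ∀ i j, ¬ (p i ↔ p j) → w i j = 0) :
    G.IsCorep (w.submatrix (Subtype.val : {i // p i} → n) Subtype.val) := by
  obtain ⟨h1, h2, h3⟩ := hw
  have key : ∀ (M : Type) [AddCommMonoid M] (f : n → M), (∀ k, ¬ p k → f k = 0) →
      ∑ k : {i // p i}, f k = ∑ k, f k := by
    intro M _ f hf
    rw [← Fintype.sum_subtype_add_sum_subtype p f]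
    have h5 : ∑ k : {i // ¬ p i}, f k = 0 := Finset.sum_eq_zero fun k _ => hf k k.2
    rw [h5, add_zero]
  refine ⟨?_, ?_, ?_⟩
  · ext1 i j
    have h4 := congrFun (congrFun h1 i) j
    rw [Matrix.mul_apply] at h4 ⊢
    simp only [Matrix.conjTranspose_apply, Matrix.submatrix_apply] at h4 ⊢
    rw [key _ (fun k => star (w k i) * w k j), h4, Matrix.one_apply, Matrix.one_apply]
    · simp only [Subtype.ext_iff]
    · intro k hk
      rw [h k j (by simp [hk, j.2]), mul_zero]
  · ext1 i j
    have h4 := congrFun (congrFun h2 i) j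
    rw [Matrix.mul_apply] at h4 ⊢
    simp only [Matrix.conjTranspose_apply, Matrix.submatrix_apply] at h4 ⊢
    rw [key _ (fun k => w i k * star (w j k)), h4, Matrix.one_apply, Matrix.one_apply]
    · simp only [Subtype.ext_iff]
    · intro k hk
      rw [h i k (by simp [hk, i.2]), zero_mul]
  · intro i j
    simp only [Matrix.submatrix_apply]
    rw [h3, key _ (fun k => G.square.tmul (w i k) (w k j))]
    intro k hk
    rw [h k j (by simp [hk, j.2]), TensorSquare.tmul, map_zero, mul_zero]

/-- the tensor product of two corepresentations -/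
def tens (v : Matrix m m G.C) (w : Matrix n n G.C) : Matrix (m × n) (m × n) G.C :=
  fun p q => v p.1 q.1 * w p.2 q.2

omit [DecidableEq m] [DecidableEq n] in
lemma trace_tens (v : Matrix m m G.C) (w : Matrix n n G.C) :
    (tens v w).trace = v.trace * w.trace := by
  rw [Matrix.trace, Matrix.trace, Matrix.trace, Finset.sum_mul_sum, Fintype.sum_prod_type]
  rfl

lemma IsCorep.tens {v : Matrix m m G.C} {w : Matrix n n G.C} (hv : G.IsCorep v)
    (hw : G.IsCorep w) : G.IsCorep (tens v w) := by
  obtain ⟨v1, v2, v3⟩ := hv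
  obtain ⟨w1, w2, w3⟩ := hw
  refine ⟨?_, ?_, ?_⟩
  · ext1 ⟨i, k⟩ ⟨j, l⟩
    rw [Matrix.mul_apply, Fintype.sum_prod_type, Finset.sum_comm]
    have h1 : ∀ q, ∑ p, (ClosedSubgroup.tens v w)ᴴ (i, k) (p, q) *
        ClosedSubgroup.tens v w (p, q) (j, l) =
        star (w q k) * (if i = j then 1 else 0) * w q l := by
      intro q
      have h2 := congrFun (congrFun v1 i) j
      rw [Matrix.mul_apply, Matrix.one_apply] at h2
      rw [← h2, Finset.mul_sum, Finset.sum_mul]
      refine Finset.sum_congr rfl fun p _ => ?_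
      simp only [Matrix.conjTranspose_apply, ClosedSubgroup.tens, star_mul, mul_assoc]
    rw [Finset.sum_congr rfl fun q _ => h1 q]
    by_cases hij : i = j
    · subst hij
      simp only [if_true, mul_one]
      have h3 := congrFun (congrFun w1 k) l
      rw [Matrix.mul_apply] at h3
      simp only [Matrix.conjTranspose_apply] at h3
      rw [h3, Matrix.one_apply, Matrix.one_apply]
      simp
    · rw [Matrix.one_apply, if_neg (fun h => hij (congrArg Prod.fst h))]
      simp [hij]
  · ext1 ⟨i, k⟩ ⟨j, l⟩
    rw [Matrix.mul_apply, Fintype.sum_prod_type]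
    have h1 : ∀ p, ∑ q, ClosedSubgroup.tens v w (i, k) (p, q) *
        (ClosedSubgroup.tens v w)ᴴ (p, q) (j, l) =
        v i p * (if k = l then 1 else 0) * star (v j p) := by
      intro p
      have h2 := congrFun (congrFun w2 k) l
      rw [Matrix.mul_apply, Matrix.one_apply] at h2
      rw [← h2, Finset.mul_sum, Finset.sum_mul]
      refine Finset.sum_congr rfl fun q _ => ?_
      simp only [Matrix.conjTranspose_apply, ClosedSubgroup.tens, star_mul, mul_assoc]
    rw [Finset.sum_congr rfl fun p _ => h1 p]
    by_cases hkl : k = l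
    · subst hkl
      simp only [if_true, mul_one]
      have h3 := congrFun (congrFun v2 i) j
      rw [Matrix.mul_apply] at h3
      simp only [Matrix.conjTranspose_apply] at h3
      rw [h3, Matrix.one_apply, Matrix.one_apply]
      simp
    · rw [Matrix.one_apply, if_neg (fun h => hkl (congrArg Prod.snd h))]
      simp [hkl]
  · rintro ⟨i, k⟩ ⟨j, l⟩
    show G.comul (v i j * w k l) = _
    rw [map_mul, v3, w3, Fintype.sum_prod_type, Finset.sum_mul_sum]
    refine Finset.sum_congr rfl fun p _ => Finset.sum_congr rfl fun q _ => ?_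
    show G.square.left (v i p) * G.square.right (v p j) *
      (G.square.left (w k q) * G.square.right (w q l)) =
      G.square.left (v i p * w k q) * G.square.right (v p j * w q l)
    rw [map_mul, map_mul]
    calc G.square.left (v i p) * G.square.right (v p j) *
          (G.square.left (w k q) * G.square.right (w q l))
        = G.square.left (v i p) * (G.square.right (v p j) * G.square.left (w k q)) *
            G.square.right (w q l) := by simp only [mul_assoc]
      _ = _ := by rw [← G.square.comm]; simp only [mul_assoc]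

/-- the trivial corepresentation -/
lemma isCorep_one : G.IsCorep (1 : Matrix n n G.C) := by
  refine ⟨by simp, by simp, ?_⟩
  rw [comul_iff]
  have h1 : ∀ f : G.C →⋆ₐ[ℂ] G.square.T, (1 : Matrix n n G.C).map f = 1 := by
    intro f
    exact Matrix.map_one f (map_zero f) (map_one f)
  rw [h1, h1, h1, Matrix.one_mul]

end general

/-- **Complete reducibility**: the character of a unitary corepresentation is a sum of irreducible
characters. -/
lemma trace_mem_aux (k : ℕ) : ∀ (n : Type) [Fintype n] [DecidableEq n] (w : Matrix n n G.C),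
    Fintype.card n = k → G.IsCorep w → w.trace ∈ Submodule.span ℂ G.irreducibleCharacters := by
  induction k using Nat.strong_induction_on with
  | _ k ih =>
  intro n _ _ w hk hw
  rcases isEmpty_or_nonempty n with hn | hn
  · rw [Matrix.trace, Finset.univ_eq_empty, Finset.sum_empty]
    exact Submodule.zero_mem _
  by_cases hirr : G.Irreducible w
  · apply Submodule.subset_span
    let e : Fin (Fintype.card n) ≃ n := (Fintype.equivFin n).symm
    refine ⟨Fintype.card n, w.submatrix e e, hw.reindex e, hirr.reindex e, ?_⟩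
    rw [Matrix.trace, Matrix.trace]
    exact (e.sum_comp (fun i => w.diag i)).symm
  · -- a non-scalar intertwiner
    rw [ClosedSubgroup.Irreducible] at hirr
    push Not at hirr
    obtain ⟨T, hT, hT2⟩ := hirr hn
    have hTs : G.sc Tᴴ * w = w * G.sc Tᴴ := by
      have h1 := congrArg Matrix.conjTranspose hT
      rw [Matrix.conjTranspose_mul, Matrix.conjTranspose_mul, sc_conjTranspose] at h1
      calc G.sc Tᴴ * w = (w * wᴴ) * (G.sc Tᴴ * w) := by rw [hw.2.1, Matrix.one_mul]
        _ = w * (wᴴ * G.sc Tᴴ) * w := by simp only [Matrix.mul_assoc]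
        _ = w * (G.sc Tᴴ * wᴴ) * w := by rw [h1]
        _ = w * G.sc Tᴴ * (wᴴ * w) := by simp only [Matrix.mul_assoc]
        _ = _ := by rw [hw.1, Matrix.mul_one]
    -- a self-adjoint one
    obtain ⟨H, hH, hHw, hHc⟩ : ∃ H : Matrix n n ℂ, H.IsHermitian ∧ G.sc H * w = w * G.sc H ∧
        ∀ c : ℂ, H ≠ c • 1 := by
      have hadd : ∀ S S' : Matrix n n ℂ, G.sc (S + S') = G.sc S + G.sc S' := by
        intro S S'
        ext i j
        simp [sc]
      have hsmul : ∀ (c : ℂ) (S : Matrix n n ℂ), G.sc (c • S) = c • G.sc S := by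
        intro c S
        ext i j
        simp [sc, Algebra.algebraMap_eq_smul_one, smul_smul]
      by_cases h1 : ∃ c : ℂ, T + Tᴴ = c • 1
      · obtain ⟨c, hc⟩ := h1
        refine ⟨Complex.I • (T + (-1 : ℂ) • Tᴴ), ?_, ?_, ?_⟩
        · rw [Matrix.IsHermitian, Matrix.conjTranspose_smul, Matrix.conjTranspose_add,
            Matrix.conjTranspose_smul, Matrix.conjTranspose_conjTranspose]
          simp only [RCLike.star_def, Complex.conj_I, map_neg, map_one]
          module
        · rw [hsmul, hadd, hsmul, Matrix.smul_mul, Matrix.add_mul, Matrix.smul_mul, hT, hTs,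
            Matrix.mul_smul, Matrix.mul_add, Matrix.mul_smul]
        · intro d hd
          have h2 : T = ((1/2 : ℂ) * (c - Complex.I * d)) • (1 : Matrix n n ℂ) := by
            have h3 : (2 : ℂ) • T = (T + Tᴴ) + (-Complex.I) • (Complex.I • (T + (-1 : ℂ) • Tᴴ)) := by
              rw [smul_smul]
              have : -Complex.I * Complex.I = 1 := by
                rw [neg_mul, Complex.I_mul_I, neg_neg]
              rw [this]
              module
            rw [hc, hd] at h3
            have h4 := congrArg (fun Z : Matrix n n ℂ => (1/2 : ℂ) • Z) h3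
            simp only [smul_smul] at h4
            norm_num at h4
            rw [h4]
            module
          exact hT2 _ h2
      · push Not at h1
        refine ⟨T + Tᴴ, ?_, ?_, h1⟩
        · rw [Matrix.IsHermitian, Matrix.conjTranspose_add, Matrix.conjTranspose_conjTranspose,
            add_comm]
        · rw [hadd, Matrix.add_mul, hT, hTs, Matrix.mul_add]
    -- diagonalization
    let lam : n → ℝ := hH.eigenvalues
    let U : Matrix n n ℂ := hH.eigenvectorUnitary
    have hU : Uᴴ * U = 1 := (Matrix.mem_unitaryGroup_iff').1 hH.eigenvectorUnitary.2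
    have hU' : U * Uᴴ = 1 := (Matrix.mem_unitaryGroup_iff).1 hH.eigenvectorUnitary.2
    have hspec : H = U * Matrix.diagonal (fun i => (lam i : ℂ)) * Uᴴ := hH.spectral_theorem
    let w' : Matrix n n G.C := G.sc Uᴴ * w * G.sc U
    have hw' : G.IsCorep w' := hw.conj hU hU'
    have hcomm : G.sc (Matrix.diagonal fun i => (lam i : ℂ)) * w' =
        w' * G.sc (Matrix.diagonal fun i => (lam i : ℂ)) := by
      have k1 : G.sc Uᴴ * G.sc U = 1 := by rw [← sc_mul, hU, sc_one]
      have h1 : G.sc H = G.sc U * G.sc (Matrix.diagonal fun i => (lam i : ℂ)) * G.sc Uᴴ := by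
        rw [← sc_mul, ← sc_mul, ← hspec]
      set D := G.sc (Matrix.diagonal fun i => (lam i : ℂ)) with hD
      rw [h1] at hHw
      calc D * w' = (G.sc Uᴴ * G.sc U) * D * (G.sc Uᴴ * w * G.sc U) := by
            rw [k1, Matrix.one_mul]
        _ = G.sc Uᴴ * (G.sc U * D * G.sc Uᴴ * w) * G.sc U := by simp only [Matrix.mul_assoc]
        _ = G.sc Uᴴ * (w * (G.sc U * D * G.sc Uᴴ)) * G.sc U := by rw [hHw]
        _ = w' * D * (G.sc Uᴴ * G.sc U) := by simp only [w', Matrix.mul_assoc]
        _ = w' * D := by rw [k1, Matrix.mul_one]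
    have hzero : ∀ i j, lam i ≠ lam j → w' i j = 0 := by
      intro i j hij
      have h1 := congrFun (congrFun hcomm i) j
      have h2 : G.sc (Matrix.diagonal fun i => (lam i : ℂ)) =
          Matrix.diagonal fun i => algebraMap ℂ G.C (lam i) := by
        ext i j
        rw [sc, Matrix.map_apply, Matrix.diagonal_apply, Matrix.diagonal_apply]
        split_ifs <;> simp
      rw [h2, Matrix.diagonal_mul, Matrix.mul_diagonal, Algebra.algebraMap_eq_smul_one,
        Algebra.algebraMap_eq_smul_one, smul_mul_assoc, one_mul, mul_smul_comm, mul_one] at h1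
      have h3 : ((lam i : ℂ) - (lam j : ℂ)) • w' i j = 0 := by rw [sub_smul, h1, sub_self]
      rcases smul_eq_zero.1 h3 with h4 | h4
      · exfalso
        apply hij
        rw [sub_eq_zero] at h4
        exact_mod_cast h4
      · exact h4
    obtain ⟨i0, j0, hij⟩ : ∃ i0 j0, lam i0 ≠ lam j0 := by
      by_contra hcon
      push Not at hcon
      obtain ⟨i0⟩ := hn
      apply hHc (lam i0 : ℂ)
      have h1 : (Matrix.diagonal fun i => (lam i : ℂ)) = (lam i0 : ℂ) • (1 : Matrix n n ℂ) := by
        ext i j
        rw [Matrix.diagonal_apply, Matrix.smul_apply, Matrix.one_apply]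
        split_ifs
        · rw [hcon i i0]; simp
        · simp
      rw [hspec, h1, Matrix.mul_smul, Matrix.mul_one, Matrix.smul_mul, hU']
    classical
    let p : n → Prop := fun i => lam i = lam i0
    have hb1 := hw'.block p (fun i j hpij => hzero i j fun h => hpij (by simp only [p, h]))
    have hb2 := hw'.block (fun i => ¬ p i)
      (fun i j hpij => hzero i j fun h => hpij (by simp only [p, h]))
    have hc1 : Fintype.card {i // p i} < k := by
      rw [← hk]
      exact Fintype.card_subtype_lt (x := j0) (fun h => hij h.symm)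
    have hc2 : Fintype.card {i // ¬ p i} < k := by
      rw [← hk]
      exact Fintype.card_subtype_lt (x := i0) (fun h => h rfl)
    have ht1 := ih _ hc1 _ _ rfl hb1
    have ht2 := ih _ hc2 _ _ rfl hb2
    have htr : w.trace = w'.trace := by
      have k2 : G.sc U * G.sc Uᴴ = 1 := by rw [← sc_mul, hU', sc_one]
      have hscal : ∀ (S : Matrix n n ℂ) (Z : Matrix n n G.C),
          (G.sc S * Z).trace = (Z * G.sc S).trace := by
        intro S Z
        simp only [Matrix.trace, Matrix.diag_apply, Matrix.mul_apply]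
        rw [Finset.sum_comm]
        refine Finset.sum_congr rfl fun i _ => Finset.sum_congr rfl fun j _ => ?_
        rw [sc, Matrix.map_apply]
        exact Algebra.commutes _ _
      show w.trace = (G.sc Uᴴ * w * G.sc U).trace
      rw [Matrix.mul_assoc, hscal, Matrix.mul_assoc, k2, Matrix.mul_one]
    have hsplit : w'.trace =
        (w'.submatrix (Subtype.val : {i // p i} → n) Subtype.val).trace +
        (w'.submatrix (Subtype.val : {i // ¬ p i} → n) Subtype.val).trace := by
      simp only [Matrix.trace, Matrix.diag_apply, Matrix.submatrix_apply]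
      exact (Fintype.sum_subtype_add_sum_subtype p fun i => w' i i).symm
    rw [htr, hsplit]
    exact Submodule.add_mem _ ht1 ht2

/-- The characters of all unitary corepresentations. -/
def charMonoid : Submonoid G.C where
  carrier := {a | ∃ (n : ℕ) (w : Matrix (Fin n) (Fin n) G.C), G.IsCorep w ∧ a = w.trace}
  one_mem' := ⟨1, 1, isCorep_one, by simp⟩
  mul_mem' := by
    rintro _ _ ⟨m, v, hv, rfl⟩ ⟨n, w, hw, rfl⟩
    refine ⟨m * n, (tens v w).submatrix finProdFinEquiv.symm finProdFinEquiv.symm,
      (hv.tens hw).reindex _, ?_⟩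
    rw [← trace_tens, Matrix.trace, Matrix.trace]
    exact (finProdFinEquiv.symm.sum_comp (fun i => (tens v w).diag i)).symm

/-- The algebra generated by the characters of the unitary corepresentations is contained in the
central algebra. -/
lemma adjoin_le_central : (Algebra.adjoin ℂ (G.charMonoid : Set G.C) : Set G.C) ⊆ G.central := by
  intro a ha
  have h1 : a ∈ Subalgebra.toSubmodule (Algebra.adjoin ℂ (G.charMonoid : Set G.C)) := ha
  rw [Algebra.adjoin_eq_span, Submonoid.closure_eq] at h1
  apply subset_closure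
  refine (Submodule.span_le.2 ?_) h1
  rintro _ ⟨n, w, hw, rfl⟩
  exact G.trace_mem_aux _ _ w rfl hw

end ClosedSubgroup

end Pool.Agent.W444.QG
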