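import Mathlib

/-!
# Linear independence of group-like elements for an arbitrary linear map `D : B → B ⊗ B`
(adapted from Mathlib's `linearIndepOn_isGroupLikeElem`).
-/

noncomputable section

namespace Pool.Agent.W444.QG

open scoped TensorProduct

open TensorProduct Module

variable {B : Type*} [AddCommGroup B] [Module ℂ B]

open Submodule in
/-- Non-zero group-like elements are linearly independent. -/
lemma linearIndepOn_groupLike (D : B →ₗ[ℂ] B ⊗[ℂ] B) :
    LinearIndepOn ℂ id {a : B | a ≠ 0 ∧ D a = a ⊗ₜ a} := by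
  classical
  rw [linearIndepOn_iff_linearIndepOn_finset]
  rintro s hs
  induction s using Finset.cons_induction with
  | empty => simp
  | cons a s has ih =>
  simp only [Finset.cons_eq_insert, Finset.coe_insert, Set.subset_def, Set.mem_insert_iff,
    Finset.mem_coe, Set.mem_ofPred_eq, forall_eq_or_imp] at hs
  obtain ⟨ha, hs⟩ := hs
  specialize ih hs
  rw [Finset.coe_cons]
  refine ih.id_insert' ?_
  simp only [mem_span_finset, forall_exists_index, and_imp]
  rintro d c - hc
  replace ih := ih.tmul_of_isDomain ih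
  simp_rw [← Finset.coe_product, linearIndepOn_finset_iffₛ, id] at ih
  have key := calc
        ∑ x ∈ s, ∑ y ∈ s, (if x = y then d * c x else 0) • x ⊗ₜ[ℂ] y
    _ = d • ∑ x ∈ s, c x • x ⊗ₜ[ℂ] x := by simp [Finset.smul_sum, mul_smul]
    _ = d • D (d • a) := by rw [← hc]; simp +contextual [(hs _ _).2]
    _ = (d • a) ⊗ₜ (d • a) := by simp [ha.2, smul_tmul, tmul_smul, -neg_smul]
    _ = ∑ x ∈ s, ∑ y ∈ s, (c x * c y) • x ⊗ₜ[ℂ] y := by
      simp_rw [← hc, sum_tmul, smul_tmul, Finset.smul_sum, tmul_sum, tmul_smul, mul_smul]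
  simp_rw [← Finset.sum_product'] at key
  apply ih at key
  replace key x (hx : x ∈ s) : c x = 0 := by
    by_contra! hcx
    have hcy (y) (hys : y ∈ s) (hyx : y ≠ x) : c y = 0 := by
      simpa [*] using (key (y, x) (by simp [*])).symm
    rw [Finset.sum_eq_single x (by simp +contextual [hcy]) (by simp [hx])] at hc
    have hcxa : d = c x := mul_left_injective₀ hcx (by simpa using (key (x, x) (by simp [*])))
    obtain rfl : x = a := by rwa [hcxa, smul_right_inj hcx] at hc
    contradiction
  simp_all [eq_comm]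

/-- A family of distinct non-zero group-like elements is linearly independent. -/
lemma linearIndependent_groupLike {P : Type*} (D : B →ₗ[ℂ] B ⊗[ℂ] B) (b : P → B)
    (hinj : Function.Injective b) (h0 : ∀ p, b p ≠ 0) (hD : ∀ p, D (b p) = b p ⊗ₜ b p) :
    LinearIndependent ℂ b := by
  have h1 : LinearIndepOn ℂ id (Set.range b) := by
    refine (linearIndepOn_groupLike D).mono ?_
    rintro _ ⟨p, rfl⟩
    exact ⟨h0 p, hD p⟩
  exact (linearIndepOn_id_range_iff hinj).1 h1

/-- coordinate functionals -/
lemma exists_coord {P : Type*} [DecidableEq P] (b : P → B) (h : LinearIndependent ℂ b) (p : P) :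
    ∃ f : B →ₗ[ℂ] ℂ, ∀ q, f (b q) = if q = p then 1 else 0 := by
  obtain ⟨f, hf⟩ := LinearMap.exists_extend ((Module.Basis.span h).coord p)
  refine ⟨f, fun q => ?_⟩
  have h1 : f (b q) = (Module.Basis.span h).coord p (Module.Basis.span h q) := by
    rw [← hf]
    simp [Module.Basis.span_apply]
  rw [h1, Module.Basis.coord_apply, Module.Basis.repr_self, Finsupp.single_apply]

end Pool.Agent.W444.QG
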