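import Mathlib

/-!
# Completions of `*`-algebras with respect to C*-seminorms

For a unital complex `*`-algebra `A` and a C*-seminorm `p` on it we construct the C*-algebra obtained
by separation and completion.  If all C*-seminorms of `A` are pointwise bounded, their supremum is
a C*-seminorm, and the associated C*-algebra is the enveloping C*-algebra of `A`.
-/

set_option linter.unusedSectionVars false

noncomputable section

namespace Pool.Agent.W444.QG

open UniformSpace

/-- A C*-seminorm on a unital complex `*`-algebra. -/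
structure CStarSeminorm (A : Type*) [Ring A] [StarRing A] [Algebra ℂ A] extends
    Seminorm ℂ A where
  /-- submultiplicativity -/
  mul_le' : ∀ a b : A, toFun (a * b) ≤ toFun a * toFun b
  /-- the C*-identity -/
  cstar' : ∀ a : A, toFun (star a * a) = toFun a ^ 2

namespace CStarSeminorm

variable {A : Type*} [Ring A] [StarRing A] [Algebra ℂ A]

instance : CoeFun (CStarSeminorm A) (fun _ => A → ℝ) := ⟨fun p => p.toSeminorm⟩

variable (p : CStarSeminorm A)

lemma mul_le (a b : A) : p (a * b) ≤ p a * p b := p.mul_le' a b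

lemma cstar (a : A) : p (star a * a) = p a ^ 2 := p.cstar' a

lemma nonneg (a : A) : 0 ≤ p a := apply_nonneg p.toSeminorm a

lemma star_le (a : A) : p a ≤ p (star a) := by
  by_contra h
  push Not at h
  have h1 : p a ^ 2 ≤ p (star a) * p a := by
    rw [← p.cstar a]; exact p.mul_le _ _
  have h2 : 0 < p a := lt_of_le_of_lt (p.nonneg _) h
  nlinarith

lemma map_star (a : A) : p (star a) = p a := by
  apply le_antisymm
  · have := p.star_le (star a)
    rwa [star_star] at this
  · exact p.star_le a

lemma dist_self_aux (a : A) : p (-a + a) = 0 := by simp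

lemma dist_comm_aux (a b : A) : p (-a + b) = p (-b + a) := by
  rw [← map_neg_eq_map p.toSeminorm (-a + b)]
  congr 1
  abel

lemma dist_triangle_aux (a b c : A) : p (-a + c) ≤ p (-a + b) + p (-b + c) := by
  refine le_trans (le_of_eq ?_) (map_add_le_add p.toSeminorm _ _)
  congr 1
  abel

/-- the underlying algebra with the seminorm -/
def Pre (_p : CStarSeminorm A) : Type _ := A

instance instRingPre : Ring p.Pre := inferInstanceAs (Ring A)
instance instStarRingPre : StarRing p.Pre := inferInstanceAs (StarRing A)
instance instAlgPre : Algebra ℂ p.Pre := inferInstanceAs (Algebra ℂ A)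

/-- the seminormed ring structure -/
instance instSRPre : SeminormedRing p.Pre where
  toRing := instRingPre p
  norm := p.toSeminorm
  dist (a b : A) := p.toSeminorm (-a + b)
  dist_self := p.dist_self_aux
  dist_comm := p.dist_comm_aux
  dist_triangle := p.dist_triangle_aux
  norm_mul_le := p.mul_le
  dist_eq := fun a b => rfl

lemma norm_smul_aux (c : ℂ) (a : A) : p (c • a) ≤ ‖c‖ * p a := (map_smul_eq_mul p.toSeminorm c a).le

instance instNAPre : NormedAlgebra ℂ p.Pre where
  toAlgebra := instAlgPre p
  norm_smul_le := p.norm_smul_aux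

/-- the identity map `A → Pre` -/
def toPre : A →+* p.Pre := RingHom.id A

lemma norm_toPre (a : A) : ‖p.toPre a‖ = p a := rfl

/-- The completion of `A` with respect to `p`. -/
def Compl : Type _ := UniformSpace.Completion p.Pre

instance : NormedRing p.Compl := inferInstanceAs (NormedRing (Completion p.Pre))
instance : CompleteSpace p.Compl := inferInstanceAs (CompleteSpace (Completion p.Pre))

lemma norm_smul_compl_aux (c : ℂ) (a : Completion p.Pre) : ‖c • a‖ ≤ ‖c‖ * ‖a‖ :=
  norm_smul_le c a

instance instAlgCompl : Algebra ℂ p.Compl := inferInstanceAs (Algebra ℂ (Completion p.Pre))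

instance instNACompl : NormedAlgebra ℂ p.Compl where
  toAlgebra := instAlgCompl p
  norm_smul_le := p.norm_smul_compl_aux

/-- the canonical map `A → Compl` as a function -/
def ofPre (a : p.Pre) : p.Compl := (a : Completion p.Pre)

lemma norm_ofPre (a : p.Pre) : ‖p.ofPre a‖ = ‖a‖ := Completion.norm_coe a

lemma dense_ofPre : DenseRange p.ofPre := Completion.denseRange_coe

lemma continuous_ofPre : Continuous p.ofPre := Completion.continuous_coe _

@[simp] lemma ofPre_mul (a b : p.Pre) : p.ofPre (a * b) = p.ofPre a * p.ofPre b :=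
  Completion.coe_mul a b
@[simp] lemma ofPre_add (a b : p.Pre) : p.ofPre (a + b) = p.ofPre a + p.ofPre b :=
  Completion.coe_add a b
@[simp] lemma ofPre_one : p.ofPre 1 = 1 := rfl
@[simp] lemma ofPre_zero : p.ofPre 0 = 0 := rfl
@[simp] lemma ofPre_smul (c : ℂ) (a : p.Pre) : p.ofPre (c • a) = c • p.ofPre a :=
  Completion.coe_smul c a

lemma isometry_star_pre : Isometry (star : p.Pre → p.Pre) := by
  refine Isometry.of_dist_eq fun a b => ?_
  rw [dist_eq_norm, dist_eq_norm, ← star_sub]
  exact p.map_star _

/-- the star operation on the completion -/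
instance : Star p.Compl := ⟨Completion.map (star : p.Pre → p.Pre)⟩

@[simp] lemma ofPre_star (a : p.Pre) : p.ofPre (star a) = star (p.ofPre a) :=
  (Completion.map_coe p.isometry_star_pre.uniformContinuous a).symm

lemma continuous_star_compl : Continuous (star : p.Compl → p.Compl) := Completion.continuous_map

lemma induction₁ {P : p.Compl → Prop} (a : p.Compl) (hc : IsClosed {a | P a})
    (h : ∀ a, P (p.ofPre a)) : P a := Completion.induction_on a hc h

lemma induction₂ {P : p.Compl → p.Compl → Prop} (a b : p.Compl)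
    (hc : IsClosed {x : p.Compl × p.Compl | P x.1 x.2})
    (h : ∀ a b, P (p.ofPre a) (p.ofPre b)) : P a b := Completion.induction_on₂ a b hc h

instance : StarRing p.Compl where
  star_involutive a := by
    induction a using p.induction₁ with
    | hc => exact isClosed_eq (p.continuous_star_compl.comp p.continuous_star_compl) continuous_id
    | h a => rw [← ofPre_star, ← ofPre_star, star_star]
  star_mul a b := by
    induction a, b using p.induction₂ with
    | hc => exact isClosed_eq (p.continuous_star_compl.comp (continuous_fst.mul continuous_snd))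
              ((p.continuous_star_compl.comp continuous_snd).mul
                (p.continuous_star_compl.comp continuous_fst))
    | h a b => rw [← ofPre_mul, ← ofPre_star, star_mul, ← ofPre_star, ← ofPre_star, ← ofPre_mul]
  star_add a b := by
    induction a, b using p.induction₂ with
    | hc => exact isClosed_eq (p.continuous_star_compl.comp (continuous_fst.add continuous_snd))
              ((p.continuous_star_compl.comp continuous_fst).add
                (p.continuous_star_compl.comp continuous_snd))
    | h a b => rw [← ofPre_add, ← ofPre_star, star_add, ← ofPre_star, ← ofPre_star, ← ofPre_add]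

variable [StarModule ℂ A]

instance : StarModule ℂ p.Pre := inferInstanceAs (StarModule ℂ A)

/-- The completion of a `*`-algebra with respect to a C*-seminorm is a C*-algebra. -/
instance : CStarAlgebra p.Compl where
  norm_mul_self_le a := by
    induction a using p.induction₁ with
    | hc => exact isClosed_le (continuous_norm.mul continuous_norm)
              (continuous_norm.comp (p.continuous_star_compl.mul continuous_id))
    | h a =>
      rw [← ofPre_star, ← ofPre_mul, norm_ofPre, norm_ofPre, ← sq]
      exact (p.cstar a).ge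
  star_smul c a := by
    induction a using p.induction₁ with
    | hc => exact isClosed_eq (p.continuous_star_compl.comp (continuous_const_smul c))
              ((continuous_const_smul (star c)).comp p.continuous_star_compl)
    | h a => rw [← ofPre_smul, ← ofPre_star, star_smul, ofPre_smul, ← ofPre_star]

/-- The canonical `*`-homomorphism from `A` to its completion. -/
def incl : A →⋆ₐ[ℂ] p.Compl where
  toFun a := p.ofPre a
  map_one' := p.ofPre_one
  map_mul' := p.ofPre_mul
  map_zero' := p.ofPre_zero
  map_add' := p.ofPre_add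
  commutes' := fun _ => rfl
  map_star' := p.ofPre_star

omit [StarModule ℂ A] in
lemma norm_incl (a : A) : ‖p.incl a‖ = p a := p.norm_ofPre a

omit [StarModule ℂ A] in
lemma denseRange_incl : DenseRange p.incl := p.dense_ofPre

/-- a `*`-homomorphism viewed on the seminormed ring -/
def preHom {D : Type*} [CStarAlgebra D] (φ : A →⋆ₐ[ℂ] D) : p.Pre →+* D :=
  (φ : A →+* D)

lemma preHom_uc {D : Type*} [CStarAlgebra D] (φ : A →⋆ₐ[ℂ] D) (h : ∀ a, ‖φ a‖ ≤ p a) :
    UniformContinuous (p.preHom φ) :=
  (AddMonoidHomClass.lipschitz_of_bound (p.preHom φ) 1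
      (fun a => by rw [one_mul]; exact h a)).uniformContinuous

lemma extension_incl {D : Type*} [CStarAlgebra D] (φ : A →⋆ₐ[ℂ] D) (h : ∀ a, ‖φ a‖ ≤ p a)
    (a : A) : Completion.extension (p.preHom φ) (p.ofPre a) = φ a :=
  Completion.extension_coe (p.preHom_uc φ h) a

/-- the underlying function of the extension of a `*`-homomorphism -/
def extFun {D : Type*} [CStarAlgebra D] (φ : A →⋆ₐ[ℂ] D) : p.Compl → D :=
  Completion.extension (p.preHom φ)

lemma extFun_continuous {D : Type*} [CStarAlgebra D] (φ : A →⋆ₐ[ℂ] D) :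
    Continuous (p.extFun φ) := Completion.continuous_extension

lemma extFun_ofPre {D : Type*} [CStarAlgebra D] (φ : A →⋆ₐ[ℂ] D) (h : ∀ a, ‖φ a‖ ≤ p a)
    (a : p.Pre) : p.extFun φ (p.ofPre a) = p.preHom φ a := p.extension_incl φ h a

lemma extFun_star {D : Type*} [CStarAlgebra D] (φ : A →⋆ₐ[ℂ] D) (h : ∀ a, ‖φ a‖ ≤ p a)
    (a : p.Compl) : p.extFun φ (star a) = star (p.extFun φ a) := by
  induction a using p.induction₁ with
  | hc => exact isClosed_eq ((p.extFun_continuous φ).comp p.continuous_star_compl)
            (continuous_star.comp (p.extFun_continuous φ))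
  | h a =>
    rw [← ofPre_star, p.extFun_ofPre φ h, p.extFun_ofPre φ h]
    exact StarHomClass.map_star φ a

/-- A `*`-homomorphism to a C*-algebra bounded by `p` extends to the completion. -/
def lift {D : Type*} [CStarAlgebra D] (φ : A →⋆ₐ[ℂ] D) (h : ∀ a, ‖φ a‖ ≤ p a) :
    p.Compl →⋆ₐ[ℂ] D :=
  { (Completion.extensionHom (p.preHom φ) (p.preHom_uc φ h).continuous :
      Completion p.Pre →+* D) with
    commutes' := fun c => (p.extFun_ofPre φ h _).trans (AlgHomClass.commutes φ c)
    map_star' := p.extFun_star φ h }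

@[simp] lemma lift_incl {D : Type*} [CStarAlgebra D] (φ : A →⋆ₐ[ℂ] D) (h : ∀ a, ‖φ a‖ ≤ p a)
    (a : A) : p.lift φ h (p.incl a) = φ a := p.extension_incl φ h a

/-- The C*-seminorm induced by a `*`-homomorphism to a C*-algebra. -/
def ofHom {D : Type*} [CStarAlgebra D] (φ : A →⋆ₐ[ℂ] D) : CStarSeminorm A where
  toFun a := ‖φ a‖
  map_zero' := by simp
  add_le' a b := by rw [map_add]; exact norm_add_le _ _
  neg' a := by rw [map_neg, norm_neg]
  smul' c a := by rw [map_smul, norm_smul]
  mul_le' a b := by rw [map_mul]; exact norm_mul_le _ _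
  cstar' a := by
    rw [map_mul, StarHomClass.map_star, CStarRing.norm_star_mul_self, sq]

@[simp] lemma ofHom_apply {D : Type*} [CStarAlgebra D] (φ : A →⋆ₐ[ℂ] D) (a : A) :
    ofHom φ a = ‖φ a‖ := rfl

instance : Nonempty (CStarSeminorm A) :=
  ⟨{ toFun := fun _ => 0
     map_zero' := rfl
     add_le' := fun a b => by simp
     neg' := fun a => rfl
     smul' := fun c a => by simp
     mul_le' := fun a b => by simp
     cstar' := fun a => by simp }⟩

variable (A) in
/-- `A` has a bounded family of C*-seminorms. -/
def Bdd : Prop := ∀ a : A, BddAbove (Set.range fun p : CStarSeminorm A => p a)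

/-- The largest C*-seminorm. -/
def max (h : Bdd A) : CStarSeminorm A where
  toFun a := ⨆ p : CStarSeminorm A, p a
  map_zero' := by simp
  add_le' a b := by
    refine ciSup_le fun p => (map_add_le_add p.toSeminorm a b).trans ?_
    exact add_le_add (le_ciSup (h a) p) (le_ciSup (h b) p)
  neg' a := by
    congr 1; ext p; exact map_neg_eq_map p.toSeminorm a
  smul' c a := by
    have : ∀ p : CStarSeminorm A, p (c • a) = ‖c‖ * p a := fun p =>
      map_smul_eq_mul p.toSeminorm c a
    simp only [this]
    rw [Real.mul_iSup_of_nonneg (norm_nonneg c)]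
  mul_le' a b := by
    refine ciSup_le fun p => (p.mul_le a b).trans ?_
    exact mul_le_mul (le_ciSup (h a) p) (le_ciSup (h b) p) (p.nonneg b)
      ((p.nonneg a).trans (le_ciSup (h a) p))
  cstar' a := by
    simp only [cstar]
    apply le_antisymm
    · refine ciSup_le fun p => ?_
      exact pow_le_pow_left₀ (p.nonneg a) (le_ciSup (h a) p) 2
    · have hb : BddAbove (Set.range fun p : CStarSeminorm A => p a ^ 2) := by
        obtain ⟨M, hM⟩ := h a
        refine ⟨M ^ 2, ?_⟩
        rintro _ ⟨p, rfl⟩
        exact pow_le_pow_left₀ (p.nonneg a) (hM ⟨p, rfl⟩) 2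
      have h0 : 0 ≤ ⨆ p : CStarSeminorm A, p a ^ 2 := by
        obtain ⟨p⟩ := (inferInstance : Nonempty (CStarSeminorm A))
        exact (sq_nonneg _).trans (le_ciSup hb p)
      have h1 : (⨆ p : CStarSeminorm A, p a) ≤ Real.sqrt (⨆ p : CStarSeminorm A, p a ^ 2) := by
        refine ciSup_le fun p => ?_
        exact Real.le_sqrt_of_sq_le (le_ciSup hb p)
      calc (⨆ p : CStarSeminorm A, p a) ^ 2
          ≤ Real.sqrt (⨆ p : CStarSeminorm A, p a ^ 2) ^ 2 := by
            refine pow_le_pow_left₀ ?_ h1 2
            obtain ⟨p⟩ := (inferInstance : Nonempty (CStarSeminorm A))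
            exact (p.nonneg a).trans (le_ciSup (h a) p)
        _ = _ := Real.sq_sqrt h0

lemma le_max (h : Bdd A) (p : CStarSeminorm A) (a : A) : p a ≤ max h a := le_ciSup (h a) p

lemma max_le (h : Bdd A) (a : A) (M : ℝ) (hM : ∀ p : CStarSeminorm A, p a ≤ M) : max h a ≤ M :=
  ciSup_le hM

end CStarSeminorm

/-- The enveloping C*-algebra of a `*`-algebra whose C*-seminorms are pointwise bounded: the
completion with respect to the largest C*-seminorm. -/
abbrev Envelope (A : Type*) [Ring A] [StarRing A] [Algebra ℂ A] (h : CStarSeminorm.Bdd A) :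
    Type _ := (CStarSeminorm.max h).Compl

/-- The universal property of the enveloping C*-algebra. -/
def Envelope.lift {A : Type*} [Ring A] [StarRing A] [Algebra ℂ A] [StarModule ℂ A]
    {h : CStarSeminorm.Bdd A} {D : Type*} [CStarAlgebra D] (φ : A →⋆ₐ[ℂ] D) :
    Envelope A h →⋆ₐ[ℂ] D :=
  (CStarSeminorm.max h).lift φ fun a => CStarSeminorm.le_max h (.ofHom φ) a

lemma Envelope.lift_incl {A : Type*} [Ring A] [StarRing A] [Algebra ℂ A] [StarModule ℂ A]
    {h : CStarSeminorm.Bdd A} {D : Type*} [CStarAlgebra D] (φ : A →⋆ₐ[ℂ] D) (a : A) :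
    Envelope.lift φ ((CStarSeminorm.max h).incl a) = φ a :=
  CStarSeminorm.lift_incl _ _ _ _

/-- Every C*-seminorm on a C*-algebra is dominated by the norm. -/
lemma CStarSeminorm.le_norm {D : Type*} [CStarAlgebra D] (p : CStarSeminorm D) (a : D) :
    p a ≤ ‖a‖ := by
  rw [← p.norm_incl]
  exact NonUnitalStarAlgHom.norm_apply_le p.incl a

section tensor

open scoped TensorProduct

variable (C D : Type*) [CStarAlgebra C] [CStarAlgebra D]

/-- the embedding of the first factor as a `*`-homomorphism -/
def tmulLeft : C →⋆ₐ[ℂ] C ⊗[ℂ] D where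
  __ := (Algebra.TensorProduct.includeLeft : C →ₐ[ℂ] C ⊗[ℂ] D)
  map_star' a := by simp

/-- the embedding of the second factor as a `*`-homomorphism -/
def tmulRight : D →⋆ₐ[ℂ] C ⊗[ℂ] D where
  __ := (Algebra.TensorProduct.includeRight : D →ₐ[ℂ] C ⊗[ℂ] D)
  map_star' a := by simp

/-- pull-back of a C*-seminorm -/
def CStarSeminorm.comp {A B : Type*} [Ring A] [StarRing A] [Algebra ℂ A] [Ring B] [StarRing B]
    [Algebra ℂ B] (p : CStarSeminorm B) (φ : A →⋆ₐ[ℂ] B) : CStarSeminorm A where
  toFun a := p (φ a)
  map_zero' := by simp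
  add_le' a b := by rw [map_add]; exact map_add_le_add p.toSeminorm _ _
  neg' a := by rw [map_neg]; exact map_neg_eq_map p.toSeminorm _
  smul' c a := by rw [map_smul]; exact map_smul_eq_mul p.toSeminorm _ _
  mul_le' a b := by rw [map_mul]; exact p.mul_le _ _
  cstar' a := by rw [map_mul, StarHomClass.map_star]; exact p.cstar _

lemma CStarSeminorm.tmul_le (p : CStarSeminorm (C ⊗[ℂ] D)) (c : C) (d : D) :
    p (c ⊗ₜ d) ≤ ‖c‖ * ‖d‖ := by
  have h : c ⊗ₜ[ℂ] d = tmulLeft C D c * tmulRight C D d := by
    show c ⊗ₜ[ℂ] d = (c ⊗ₜ[ℂ] (1 : D)) * ((1 : C) ⊗ₜ[ℂ] d)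
    rw [Algebra.TensorProduct.tmul_mul_tmul, mul_one, one_mul]
  rw [h]
  refine (p.mul_le _ _).trans ?_
  exact mul_le_mul ((p.comp (tmulLeft C D)).le_norm c) ((p.comp (tmulRight C D)).le_norm d)
    (p.nonneg _) (norm_nonneg _)

/-- The C*-seminorms of the algebraic tensor product of two C*-algebras are pointwise bounded. -/
lemma CStarSeminorm.bdd_tensor : CStarSeminorm.Bdd (C ⊗[ℂ] D) := by
  intro t
  induction t with
  | zero => exact ⟨0, by rintro _ ⟨p, rfl⟩; exact (map_zero p.toSeminorm).le⟩
  | tmul c d => exact ⟨‖c‖ * ‖d‖, by rintro _ ⟨p, rfl⟩; exact p.tmul_le C D c d⟩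
  | add s t hs ht =>
    obtain ⟨M, hM⟩ := hs
    obtain ⟨M', hM'⟩ := ht
    exact ⟨M + M', by
      rintro _ ⟨p, rfl⟩
      exact (map_add_le_add p.toSeminorm _ _).trans
        (add_le_add (hM ⟨p, rfl⟩) (hM' ⟨p, rfl⟩))⟩

/-- The maximal C*-tensor product of two unital C*-algebras: the enveloping C*-algebra of their
algebraic tensor product. -/
abbrev MaxTensor : Type _ := Envelope (C ⊗[ℂ] D) (CStarSeminorm.bdd_tensor C D)

variable {C D} in
/-- The canonical map of the algebraic tensor product to the maximal C*-tensor product. -/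
def toMax : C ⊗[ℂ] D →⋆ₐ[ℂ] MaxTensor C D := (CStarSeminorm.max (CStarSeminorm.bdd_tensor C D)).incl

end tensor

end Pool.Agent.W444.QG
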